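import Mathlib

set_option autoImplicit false

open scoped commutatorElement

namespace H749Z.HK

universe u

section pred
variable {G : Type u} [Group G]

/-- First half of a cube. -/
def lo {K : ℕ} (u : (Fin (K + 1) → Bool) → G) : (Fin K → Bool) → G :=
  fun w => u (Fin.cons false w)

/-- Second half of a cube. -/
def hi {K : ℕ} (u : (Fin (K + 1) → Bool) → G) : (Fin K → Bool) → G :=
  fun w => u (Fin.cons true w)

/-- Host-Kra cubes for a family of sets. -/
def InHK (S : ℕ → Set G) : (K : ℕ) → ℕ → ((Fin K → Bool) → G) → Prop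
  | 0, i, u => ∀ w, u w ∈ S i
  | K + 1, i, u => InHK S K i (lo u) ∧ InHK S K (i + 1) ((lo u)⁻¹ * hi u)

theorem InHK.mono {S T : ℕ → Set G} (h : ∀ j, S j ⊆ T j) :
    ∀ {K i : ℕ} {u : (Fin K → Bool) → G}, InHK S K i u → InHK T K i u
  | 0, _, _, hu => fun w => h _ (hu w)
  | _ + 1, _, _, hu => ⟨InHK.mono h hu.1, InHK.mono h hu.2⟩

theorem inHK_const {S : ℕ → Set G} (h1 : ∀ j, 1 ∈ S j) :
    ∀ (K i : ℕ) (g : G), g ∈ S i → InHK S K i fun _ => g
  | 0, _, _, hg => fun _ => hg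
  | K + 1, i, g, hg => ⟨inHK_const h1 K i g hg, by
      have : ((lo fun _ : Fin (K + 1) → Bool => g)⁻¹ * hi fun _ : Fin (K + 1) → Bool => g) =
          fun _ => 1 := by
        funext w
        simp [lo, hi]
      rw [this]
      exact inHK_const h1 K (i + 1) 1 (h1 _)⟩

theorem inHK_edge {S : ℕ → Set G} (h1 : ∀ j, 1 ∈ S j) (h0 : ∀ g, g ∈ S 0) (h0' : ∀ g, g ∈ S 1) :
    ∀ (K : ℕ) (j : Fin K) (a b : G), InHK S K 0 fun w => if w j then b else a
  | 0, j, _, _ => j.elim0
  | K + 1, j, a, b => by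
      refine Fin.cases ?_ (fun j => ?_) j
      · refine ⟨?_, ?_⟩
        · have : (lo fun w : Fin (K + 1) → Bool => if w 0 then b else a) = fun _ => a := by
            funext w
            simp [lo]
          rw [this]
          exact inHK_const h1 K 0 a (h0 a)
        · have : ((lo fun w : Fin (K + 1) → Bool => if w 0 then b else a)⁻¹ *
              hi fun w : Fin (K + 1) → Bool => if w 0 then b else a) = fun _ => a⁻¹ * b := by
            funext w
            simp [lo, hi]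
          rw [this]
          exact inHK_const h1 K 1 _ (h0' _)
      · refine ⟨?_, ?_⟩
        · have : (lo fun w : Fin (K + 1) → Bool => if w j.succ then b else a) =
              fun w => if w j then b else a := by
            funext w
            simp [lo]
          rw [this]
          exact inHK_edge h1 h0 h0' K j a b
        · have : ((lo fun w : Fin (K + 1) → Bool => if w j.succ then b else a)⁻¹ *
              hi fun w : Fin (K + 1) → Bool => if w j.succ then b else a) = fun _ => 1 := by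
            funext w
            simp only [lo, hi, Pi.mul_apply, Pi.inv_apply, Fin.cons_succ, inv_mul_cancel]
          rw [this]
          exact inHK_const h1 K 1 _ (h1 _)

theorem InHK.map {G' : Type u} [Group G'] (π : G →* G') {S : ℕ → Set G} {T : ℕ → Set G'}
    (h : ∀ j, ∀ g ∈ S j, π g ∈ T j) :
    ∀ {K i : ℕ} {u : (Fin K → Bool) → G}, InHK S K i u → InHK T K i fun w => π (u w)
  | 0, _, _, hu => fun w => h _ _ (hu w)
  | K + 1, i, u, hu => ⟨InHK.map π h hu.1, by
      have := InHK.map π h hu.2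
      convert this using 1
      funext w
      simp [lo, hi]⟩

theorem InHK.lift {G' : Type u} [Group G'] (π : G →* G') {S : ℕ → Set G} {T : ℕ → Set G'}
    (h : ∀ j, ∀ x ∈ T j, ∃ g ∈ S j, π g = x) :
    ∀ {K i : ℕ} {v : (Fin K → Bool) → G'}, InHK T K i v →
      ∃ u : (Fin K → Bool) → G, InHK S K i u ∧ ∀ w, π (u w) = v w
  | 0, i, v, hv => by
      choose g hg1 hg2 using fun w => h i (v w) (hv w)
      exact ⟨g, hg1, hg2⟩
  | K + 1, i, v, hv => by
      obtain ⟨a, ha1, ha2⟩ := InHK.lift π h hv.1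
      obtain ⟨b, hb1, hb2⟩ := InHK.lift π h hv.2
      refine ⟨fun w => if w 0 then a (Fin.tail w) * b (Fin.tail w) else a (Fin.tail w), ⟨?_, ?_⟩, ?_⟩
      · convert ha1 using 1
        funext w
        simp [lo]
      · convert hb1 using 1
        funext w
        simp [lo, hi]
      · intro w
        have hw : w = Fin.cons (w 0) (Fin.tail w) := (Fin.cons_self_tail w).symm
        cases h0 : w 0
        · rw [h0] at hw
          simp only [h0, Bool.false_eq_true, if_false, ha2, lo]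
          rw [← hw]
        · rw [h0] at hw
          simp only [h0, if_true, map_mul, ha2, hb2, lo, hi, Pi.mul_apply, Pi.inv_apply,
            mul_inv_cancel_left]
          rw [← hw]

theorem InHK.corner {S : ℕ → Set G} (H : Subgroup G) :
    ∀ {K i : ℕ} {u : (Fin K → Bool) → G}, InHK S K i u → (∀ g ∈ S (i + K), g = 1) →
      (∀ w, w ≠ (fun _ => true) → u w ∈ H) → u (fun _ => true) ∈ H
  | 0, i, u, hu, h1, _ => by
      rw [h1 _ (hu _)]
      exact H.one_mem
  | K + 1, i, u, hu, h1, h2 => by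
      have hlo : ∀ w, lo u w ∈ H := fun w => h2 _ fun h => by simpa using congrFun h 0
      have h3 := InHK.corner H hu.2 (by rwa [show i + 1 + K = i + (K + 1) by omega])
        fun w hw => H.mul_mem (H.inv_mem (hlo w)) (h2 _ fun h => hw (by
          funext j
          simpa using congrFun h j.succ))
      have h4 := H.mul_mem (hlo fun _ => true) h3
      have e : (Fin.cons true fun _ => true : Fin (K + 1) → Bool) = fun _ => true := by
        funext j
        refine Fin.cases ?_ (fun j => ?_) j <;> simp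
      simpa [hi, e] using h4

end pred

/-- A filtration of a group. -/
structure Filt (G : Type u) [Group G] where
  F : ℕ → Subgroup G
  anti : ∀ j, F (j + 1) ≤ F j
  comm : ∀ i j, ∀ a ∈ F i, ∀ b ∈ F j, ⁅a, b⁆ ∈ F (i + j)

namespace Filt
variable {G : Type u} [Group G] (Φ : Filt G)

theorem anti' {i j : ℕ} (h : i ≤ j) : Φ.F j ≤ Φ.F i := antitone_nat_of_succ_le Φ.anti h

theorem conj {i j : ℕ} {a b : G} (ha : a ∈ Φ.F i) (hb : b ∈ Φ.F j) : a * b * a⁻¹ ∈ Φ.F j := by
  have h := (Φ.F j).mul_mem (Φ.anti' (Nat.le_add_left j i) (Φ.comm i j a ha b hb)) hb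
  simpa [commutatorElement_def] using h

theorem conj' {i j : ℕ} {a b : G} (ha : a ∈ Φ.F i) (hb : b ∈ Φ.F j) : a⁻¹ * b * a ∈ Φ.F j := by
  simpa using Φ.conj ((Φ.F i).inv_mem ha) hb

theorem step_mul {i : ℕ} {a b x y : G} (_ : a ∈ Φ.F i) (hb : b ∈ Φ.F i)
    (hx : a⁻¹ * x ∈ Φ.F (i + 1)) (hy : b⁻¹ * y ∈ Φ.F (i + 1)) :
    (a * b)⁻¹ * (x * y) ∈ Φ.F (i + 1) := by
  have := (Φ.F (i + 1)).mul_mem (Φ.conj' hb hx) hy
  convert this using 1
  group

theorem step_inv {i : ℕ} {a x : G} (ha : a ∈ Φ.F i) (hx : a⁻¹ * x ∈ Φ.F (i + 1)) :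
    (a⁻¹)⁻¹ * x⁻¹ ∈ Φ.F (i + 1) := by
  have := Φ.conj ha ((Φ.F (i + 1)).inv_mem hx)
  convert this using 1
  group

theorem step_comm {i j : ℕ} {a b x y : G} (ha : a ∈ Φ.F i) (hb : b ∈ Φ.F j)
    (hx : a⁻¹ * x ∈ Φ.F (i + 1)) (hy : b⁻¹ * y ∈ Φ.F (j + 1)) :
    ⁅a, b⁆⁻¹ * ⁅x, y⁆ ∈ Φ.F (i + j + 1) := by
  have hy' : y ∈ Φ.F j := by
    simpa using (Φ.F j).mul_mem hb (Φ.anti j hy)
  have h1 : ⁅a⁻¹ * x, y⁆ ∈ Φ.F (i + j + 1) := by
    have := Φ.comm _ _ _ hx _ hy'
    rwa [show i + 1 + j = i + j + 1 by omega] at this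
  have h2 : ⁅a, b⁻¹ * y⁆ ∈ Φ.F (i + j + 1) := Φ.comm _ _ _ ha _ hy
  have h3 := (Φ.F (i + j + 1)).mul_mem (Φ.conj' (Φ.comm _ _ _ ha _ hb) (Φ.conj ha h1))
    (Φ.conj hb h2)
  convert h3 using 1
  simp only [commutatorElement_def]
  group

/-- The sets of the filtration. -/
def S : ℕ → Set G := fun j => Φ.F j

theorem exists_HK : ∀ K : ℕ, ∃ Ψ : Filt ((Fin K → Bool) → G),
    ∀ i u, u ∈ Ψ.F i ↔ InHK Φ.S K i u
  | 0 => ⟨⟨fun i => Subgroup.pi Set.univ fun _ => Φ.F i,
      fun j u hu w hw => Φ.anti j (hu w hw),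
      fun i j a ha b hb w hw => Φ.comm i j _ (ha w hw) _ (hb w hw)⟩,
      fun i u => ⟨fun h w => h w trivial, fun h w _ => h w⟩⟩
  | K + 1 => by
      obtain ⟨Ψ, hΨ⟩ := exists_HK K
      refine ⟨⟨fun i =>
        { carrier := {u | lo u ∈ Ψ.F i ∧ (lo u)⁻¹ * hi u ∈ Ψ.F (i + 1)}
          one_mem' := ⟨(Ψ.F i).one_mem, by
            have : (lo (1 : (Fin (K + 1) → Bool) → G))⁻¹ * hi 1 = 1 := by
              funext w
              simp [lo, hi]
            rw [this]
            exact (Ψ.F _).one_mem⟩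
          mul_mem' := fun ha hb => ⟨(Ψ.F i).mul_mem ha.1 hb.1, Ψ.step_mul ha.1 hb.1 ha.2 hb.2⟩
          inv_mem' := fun ha => ⟨(Ψ.F i).inv_mem ha.1, Ψ.step_inv ha.1 ha.2⟩ },
        fun j u hu => ⟨Ψ.anti j hu.1, Ψ.anti _ hu.2⟩,
        fun i j a ha b hb => ⟨Ψ.comm i j _ ha.1 _ hb.1, Ψ.step_comm ha.1 hb.1 ha.2 hb.2⟩⟩,
        fun i u => ?_⟩
      exact and_congr (hΨ _ _) (hΨ _ _)

variable {Φ}

theorem hk_mul {K i : ℕ} {u v : (Fin K → Bool) → G} (hu : InHK Φ.S K i u) (hv : InHK Φ.S K i v) :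
    InHK Φ.S K i (u * v) := by
  obtain ⟨Ψ, hΨ⟩ := Φ.exists_HK K
  exact (hΨ _ _).1 ((Ψ.F i).mul_mem ((hΨ _ _).2 hu) ((hΨ _ _).2 hv))

theorem hk_inv {K i : ℕ} {u : (Fin K → Bool) → G} (hu : InHK Φ.S K i u) :
    InHK Φ.S K i u⁻¹ := by
  obtain ⟨Ψ, hΨ⟩ := Φ.exists_HK K
  exact (hΨ _ _).1 ((Ψ.F i).inv_mem ((hΨ _ _).2 hu))

theorem hk_const (h0 : Φ.F 0 = ⊤) (K : ℕ) (g : G) : InHK Φ.S K 0 fun _ => g :=
  inHK_const (fun j => (Φ.F j).one_mem) K 0 g (by simp [h0, Filt.S])

end Filt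

section action
variable {G Q : Type u} [Group G] [MulAction G Q]

theorem smul_step {u0 u1 z0 z1 : G} {b : Q} (h0 : z0 ∈ Subgroup.center G)
    (h1 : z1 ∈ Subgroup.center G) (e0 : u0 • b = z0 • b) (e1 : u1 • b = z1 • b) :
    (u0⁻¹ * u1) • b = (z0⁻¹ * z1) • b := by
  have c0 := Subgroup.mem_center_iff.1 h0
  have c1 := Subgroup.mem_center_iff.1 h1
  have e2 : u0⁻¹ • b = z0⁻¹ • b := by
    rw [inv_smul_eq_iff, ← mul_smul, (Subgroup.mem_center_iff.1 (inv_mem h0)) u0, mul_smul, e0,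
      inv_smul_smul]
  rw [mul_smul, e1, ← mul_smul, c1 u0⁻¹, mul_smul, e2, ← mul_smul, ← c1 z0⁻¹]

/-- Cubes with values in a group of fibre translations. -/
theorem inHK_cut {S : ℕ → Set G} {E : ℕ} (hS : ∀ j, E ≤ j → ∀ g ∈ S j, g = 1) (P : Subgroup G)
    (B : Set Q) (hP : ∀ p ∈ P, ∀ b : Q, ∃ z ∈ Subgroup.center G, p • b = z • b)
    (hB : ∀ p ∈ P, (∀ b ∈ B, p • b = b) → p = 1) :
    ∀ {K i : ℕ} {p : (Fin K → Bool) → G}, (∀ w, p w ∈ P) →
      (∀ b ∈ B, ∃ u, InHK S K i u ∧ ∀ w, u w • b = p w • b) →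
      InHK (fun j => {g | g ∈ P ∧ (j < E ∨ g = 1)}) K i p
  | 0, i, p, hp, h => fun w => ⟨hp w, by
      by_cases hi : i < E
      · exact Or.inl hi
      · refine Or.inr (hB _ (hp w) fun b hb => ?_)
        obtain ⟨u, hu1, hu2⟩ := h b hb
        rw [← hu2 w, hS i (not_lt.1 hi) _ (hu1 w), one_smul]⟩
  | K + 1, i, p, hp, h => by
      refine ⟨inHK_cut hS P B hP hB (fun w => hp _) fun b hb => ?_,
        inHK_cut hS P B hP hB (fun w => P.mul_mem (P.inv_mem (hp _)) (hp _)) fun b hb => ?_⟩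
      · obtain ⟨u, hu1, hu2⟩ := h b hb
        exact ⟨lo u, hu1.1, fun w => hu2 _⟩
      · obtain ⟨u, hu1, hu2⟩ := h b hb
        refine ⟨_, hu1.2, fun w => ?_⟩
        obtain ⟨z0, hz0, e0⟩ := hP _ (hp (Fin.cons false w)) b
        obtain ⟨z1, hz1, e1⟩ := hP _ (hp (Fin.cons true w)) b
        exact (smul_step hz0 hz1 ((hu2 _).trans e0) ((hu2 _).trans e1)).trans
          (smul_step hz0 hz1 e0 e1).symm

/-- A map `σ : Q → G` like the left or right translation of a loop. -/
def Good (σ : Q → G) : Prop := ∀ b : Q, ∃ g : G, ∀ y : Q, σ y • b = g • y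

end action

section quotient
variable (G Q : Type u) [Group G] [MulAction G Q]

abbrev QZ : Type u := MulAction.orbitRel.Quotient (Subgroup.center G) Q

variable {G Q}

def cl (x : Q) : QZ G Q := Quotient.mk _ x

theorem cl_eq {x y : Q} : (cl x : QZ G Q) = cl y ↔ ∃ z ∈ Subgroup.center G, x = z • y := by
  rw [cl, cl, Quotient.eq]
  constructor
  · rintro ⟨z, hz⟩
    exact ⟨z.1, z.2, hz.symm⟩
  · rintro ⟨z, hz, rfl⟩
    exact ⟨⟨z, hz⟩, rfl⟩

theorem cl_surj (a : QZ G Q) : ∃ x : Q, cl x = a := Quotient.exists_rep a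

def act (g : G) : QZ G Q → QZ G Q :=
  Quotient.lift (fun x => cl (g • x)) fun x y h => by
    obtain ⟨z, hz, rfl⟩ := (cl_eq (G := G)).1 (Quotient.sound h)
    exact cl_eq.2 ⟨z, hz, by rw [← mul_smul, Subgroup.mem_center_iff.1 hz g, mul_smul]⟩

variable (G Q)

/-- The action on the orbits of the center. -/
@[reducible] def actQZ : MulAction G (QZ G Q) where
  smul := act
  one_smul := fun a => by
    obtain ⟨x, rfl⟩ := cl_surj a
    exact congrArg cl (one_smul G x)
  mul_smul := fun g h a => by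
    obtain ⟨x, rfl⟩ := cl_surj a
    exact congrArg cl (mul_smul g h x)

def rho : G →* Equiv.Perm (QZ G Q) := @MulAction.toPermHom G (QZ G Q) _ (actQZ G Q)

variable {G Q}

theorem rho_apply (g : G) (x : Q) : rho G Q g (cl x) = cl (g • x) := rfl

abbrev GZ (G Q : Type u) [Group G] [MulAction G Q] : Type u := (rho G Q).range

abbrev pz (G Q : Type u) [Group G] [MulAction G Q] : G →* GZ G Q := (rho G Q).rangeRestrict

theorem pz_smul (g : G) (x : Q) : pz G Q g • (cl x : QZ G Q) = cl (g • x) := rfl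

theorem mem_ker_pz {g : G} :
    g ∈ (pz G Q).ker ↔ ∀ b : Q, ∃ z ∈ Subgroup.center G, g • b = z • b := by
  rw [MonoidHom.ker_rangeRestrict, MonoidHom.mem_ker]
  constructor
  · intro h b
    have := rho_apply g b
    rw [h] at this
    exact cl_eq.1 this.symm
  · intro h
    ext a
    obtain ⟨x, rfl⟩ := cl_surj a
    exact cl_eq.2 (h x)

theorem center_le_ker : Subgroup.center G ≤ (pz G Q).ker :=
  fun z hz => mem_ker_pz.2 fun _ => ⟨z, hz, rfl⟩

theorem ker_comm [FaithfulSMul G Q] {a b : G} (ha : a ∈ (pz G Q).ker) (hb : b ∈ (pz G Q).ker) :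
    ⁅a, b⁆ = 1 := by
  rw [commutatorElement_eq_one_iff_mul_comm]
  refine eq_of_smul_eq_smul (α := Q) fun x => ?_
  obtain ⟨z, hz, e⟩ := mem_ker_pz.1 ha x
  obtain ⟨z', hz', e'⟩ := mem_ker_pz.1 hb x
  rw [mul_smul, mul_smul, e, e', ← mul_smul, ← mul_smul, Subgroup.mem_center_iff.1 hz' a,
    Subgroup.mem_center_iff.1 hz b, mul_smul, mul_smul, e, e', ← mul_smul, ← mul_smul,
    Subgroup.mem_center_iff.1 hz z']

theorem ucs_pz (n : ℕ) : ∀ g ∈ Subgroup.upperCentralSeries G (n + 1),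
    pz G Q g ∈ Subgroup.upperCentralSeries (GZ G Q) n := by
  induction n with
  | zero =>
    intro g hg
    rw [zero_add, Subgroup.upperCentralSeries_one] at hg
    exact center_le_ker hg
  | succ n ih =>
    intro g hg y
    obtain ⟨y, rfl⟩ := (rho G Q).rangeRestrict_surjective y
    have := ih _ (hg y)
    rwa [map_commutatorElement] at this

theorem ucs_comm {n : ℕ} {b : G} (hb : b ∈ Subgroup.upperCentralSeries G n) (a : G) :
    ⁅b, a⁆ ∈ Subgroup.upperCentralSeries G (n - 1) := by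
  cases n with
  | zero =>
    have : b = 1 := hb
    simp [this]
  | succ n => exact hb a

/-- The filtration of `G` built from a filtration of the quotient. -/
def liftFilt [FaithfulSMul G Q] (Φ : Filt (GZ G Q)) (E c J : ℕ) (hE : 0 < E)
    (hΦ : ∀ j, E ≤ j → Φ.F j = ⊥) : Filt G where
  F j := (Φ.F j).comap (pz G Q) ⊓ Subgroup.upperCentralSeries G (c - (j - J) / E)
  anti j := inf_le_inf (Subgroup.comap_mono (Φ.anti j)) (Subgroup.upperCentralSeries_mono G
    (Nat.sub_le_sub_left (Nat.div_le_div_right (by omega)) c))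
  comm i j a ha b hb := by
    refine ⟨?_, ?_⟩
    · have := Φ.comm i j _ ha.1 _ hb.1
      rwa [← map_commutatorElement] at this
    · have key : ∀ s t : ℕ, s < E → c - (t - J) / E - 1 ≤ c - (s + t - J) / E := by
        intro s t hs
        have h1 : (s + t - J) / E ≤ (t - J + E) / E := Nat.div_le_div_right (by omega)
        rw [Nat.add_div_right _ hE] at h1
        omega
      by_cases hi : i < E
      · have := inv_mem (ucs_comm hb.2 a)
        rw [commutatorElement_inv] at this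
        exact Subgroup.upperCentralSeries_mono G (key i j hi) this
      · by_cases hj : j < E
        · have := key j i hj
          rw [add_comm j i] at this
          exact Subgroup.upperCentralSeries_mono G this (ucs_comm ha.2 b)
        · have ha' : a ∈ (pz G Q).ker := by
            have := ha.1
            rw [hΦ i (not_lt.1 hi)] at this
            exact this
          have hb' : b ∈ (pz G Q).ker := by
            have := hb.1
            rw [hΦ j (not_lt.1 hj)] at this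
            exact this
          rw [ker_comm ha' hb']
          exact one_mem _

end quotient

/-- The length of the filtration. -/
def EE : ℕ → ℕ
  | 0 => 2
  | c + 1 => 2 * (c + 1) * EE c

theorem two_le_EE : ∀ c, 2 ≤ EE c
  | 0 => le_rfl
  | c + 1 => by
      have := two_le_EE c
      rw [EE]
      nlinarith

theorem EE_eq (c : ℕ) : EE c = 2 ^ (c + 1) * c.factorial := by
  induction c with
  | zero => rfl
  | succ c ih => rw [EE, ih, Nat.factorial_succ]; ring

theorem main_filt (c : ℕ) : ∀ (G Q : Type u) [Group G] [MulAction G Q] [FaithfulSMul G Q]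
    [MulAction.IsPretransitive G Q] (e : Q), Subgroup.upperCentralSeries G c = ⊤ →
    ∃ Φ : Filt G, Φ.F 0 = ⊤ ∧ Φ.F 1 = ⊤ ∧ (∀ j, EE c ≤ j → Φ.F j = ⊥) ∧
      ∀ (K : ℕ) (σ : Q → G), Good σ → ∀ u, InHK Φ.S K 0 u →
        InHK Φ.S K 0 fun w => σ (u w • e) := by
  induction c with
  | zero =>
    intro G Q _ _ _ _ e h
    have h1 : ∀ g : G, g = 1 := fun g => by
      have : g ∈ Subgroup.upperCentralSeries G 0 := h ▸ Subgroup.mem_top g
      exact this
    refine ⟨⟨fun _ => ⊤, fun _ => le_rfl, fun _ _ _ _ _ _ => trivial⟩, rfl, rfl,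
      fun j _ => h.symm, fun K σ _ u _ => ?_⟩
    have : (fun w => σ (u w • e)) = fun _ => 1 := funext fun w => h1 _
    rw [this]
    exact inHK_const (fun _ => Subgroup.mem_top _) K 0 1 (Subgroup.mem_top _)
  | succ c ih =>
    intro G Q _ _ _ _ e h
    have hsurj : Function.Surjective (pz G Q) := (rho G Q).rangeRestrict_surjective
    have : MulAction.IsPretransitive (GZ G Q) (QZ G Q) := ⟨fun a b => by
      obtain ⟨x, rfl⟩ := cl_surj a
      obtain ⟨y, rfl⟩ := cl_surj b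
      obtain ⟨g, rfl⟩ := MulAction.exists_smul_eq G x y
      exact ⟨pz G Q g, rfl⟩⟩
    obtain ⟨Φ, h0, h1, hE, hσ⟩ := ih (GZ G Q) (QZ G Q) (cl e) (by
      rw [eq_top_iff]
      intro y _
      obtain ⟨y, rfl⟩ := hsurj y
      exact ucs_pz c y (h ▸ Subgroup.mem_top y))
    have hE2 := two_le_EE c
    set E := EE c with hEdef
    have hEpos : 0 < E := by omega
    let Φ0 : Filt G := liftFilt Φ E (c + 1) 0 hEpos hE
    let Φ1 : Filt G := liftFilt Φ E (c + 1) ((c + 1) * E) hEpos hE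
    have hmem : ∀ (J j : ℕ) (g : G), g ∈ (liftFilt Φ E (c + 1) J hEpos hE).F j ↔
        pz G Q g ∈ Φ.F j ∧ g ∈ Subgroup.upperCentralSeries G (c + 1 - (j - J) / E) :=
      fun _ _ _ => Iff.rfl
    have htop : ∀ (J j : ℕ) (g : G), j < J + E →
        g ∈ Subgroup.upperCentralSeries G (c + 1 - (j - J) / E) := by
      intro J j g hj
      rw [Nat.div_eq_of_lt (by omega), Nat.sub_zero, h]
      trivial
    have hbot : ∀ (J j : ℕ) (g : G), J + (c + 1) * E ≤ j →
        g ∈ (liftFilt Φ E (c + 1) J hEpos hE).F j → g = 1 := by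
      intro J j g hj hg
      have h2 := ((hmem J j g).1 hg).2
      have h3 : c + 1 ≤ (j - J) / E := (Nat.le_div_iff_mul_le hEpos).2 (by omega)
      rw [show c + 1 - (j - J) / E = 0 by omega] at h2
      exact h2
    have hT0 : ∀ J, (liftFilt Φ E (c + 1) J hEpos hE).F 0 = ⊤ := fun J => by
      rw [eq_top_iff]
      intro g _
      exact (hmem J 0 g).2 ⟨h0 ▸ Subgroup.mem_top _, htop J 0 g (by omega)⟩
    have hle : ∀ j, Φ0.S j ⊆ Φ1.S j := fun j g hg =>
      (hmem _ j g).2 ⟨((hmem 0 j g).1 hg).1, Subgroup.upperCentralSeries_mono G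
        (Nat.sub_le_sub_left (Nat.div_le_div_right (by omega)) _) ((hmem 0 j g).1 hg).2⟩
    have hlift : ∀ j, ∀ x ∈ Φ.S j, ∃ g ∈ Φ0.S j, pz G Q g = x := by
      intro j x hx
      by_cases hj : j < E
      · obtain ⟨g, rfl⟩ := hsurj x
        exact ⟨g, (hmem 0 j g).2 ⟨hx, htop 0 j g (by omega)⟩, rfl⟩
      · have : x ∈ Φ.F j := hx
        rw [hE j (not_lt.1 hj)] at this
        exact ⟨1, (Φ0.F j).one_mem, by rw [map_one]; exact this.symm⟩
    have hfree : ∀ p ∈ Subgroup.center G, (∀ b ∈ ({e} : Set Q), p • b = b) → p = 1 := by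
      intro p hp hb
      refine eq_of_smul_eq_smul (α := Q) fun x => ?_
      obtain ⟨g, rfl⟩ := MulAction.exists_smul_eq G e x
      rw [one_smul, ← mul_smul, ← Subgroup.mem_center_iff.1 hp g, mul_smul, hb e rfl]
    refine ⟨Φ1, hT0 _, ?_, ?_, ?_⟩
    · rw [eq_top_iff]
      intro g _
      exact (hmem _ 1 g).2 ⟨h1 ▸ Subgroup.mem_top _, htop _ 1 g (by omega)⟩
    · intro j hj
      rw [eq_bot_iff]
      intro g hg
      refine hbot _ j g ?_ hg
      rw [EE] at hj
      nlinarith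
    intro K σ hgood u hu
    have hzσ : ∀ z ∈ Subgroup.center G, ∀ y, σ (z • y) = z * σ y := by
      intro z hz y
      refine eq_of_smul_eq_smul (α := Q) fun b => ?_
      obtain ⟨g, hg⟩ := hgood b
      rw [hg, mul_smul, hg, ← mul_smul, Subgroup.mem_center_iff.1 hz g, mul_smul]
    let σ' : QZ G Q → GZ G Q := Quotient.lift (fun y => pz G Q (σ y)) fun x y hxy => by
      obtain ⟨z, hz, rfl⟩ := (cl_eq (G := G)).1 (Quotient.sound hxy)
      have : pz G Q z = 1 := center_le_ker hz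
      rw [hzσ z hz, map_mul, this, one_mul]
    have hσ' : ∀ y, σ' (cl y) = pz G Q (σ y) := fun _ => rfl
    have hgood' : Good σ' := by
      intro b
      obtain ⟨b, rfl⟩ := cl_surj b
      obtain ⟨g, hg⟩ := hgood b
      refine ⟨pz G Q g, fun y => ?_⟩
      obtain ⟨y, rfl⟩ := cl_surj y
      rw [hσ', pz_smul, pz_smul, hg]
    have hubar : InHK Φ.S K 0 fun w => pz G Q (u w) :=
      InHK.map (pz G Q) (fun j g hg => ((hmem _ j g).1 hg).1) hu
    obtain ⟨u0, hu0, hu0'⟩ := InHK.lift (pz G Q) hlift hubar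
    have hW : ∀ w, (u0 w)⁻¹ * u w ∈ (pz G Q).ker := fun w => by
      rw [MonoidHom.mem_ker, map_mul, map_inv, hu0', inv_mul_cancel]
    choose z hz hze using fun w => mem_ker_pz.1 (hW w) e
    have hzHK : InHK Φ1.S K 0 z := by
      have := inHK_cut (Q := Q) (S := Φ1.S) (E := (c + 1) * E + (c + 1) * E)
        (fun j hj g hg => hbot _ j g hj hg) (Subgroup.center G) {e}
        (fun p hp b => ⟨p, hp, rfl⟩) hfree (K := K) (i := 0) (p := z) hz (by
          rintro b rfl
          exact ⟨u0⁻¹ * u, Filt.hk_mul (Filt.hk_inv (hu0.mono hle)) hu, hze⟩)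
      refine this.mono fun j g hg => ?_
      rcases hg.2 with hj | rfl
      · refine (hmem _ j g).2 ⟨?_, ?_⟩
        · have : pz G Q g = 1 := center_le_ker hg.1
          rw [this]
          exact one_mem _
        · have h3 : (j - (c + 1) * E) / E < c + 1 := (Nat.div_lt_iff_lt_mul hEpos).2 (by omega)
          refine Subgroup.upperCentralSeries_mono G (show 1 ≤ _ by omega) ?_
          rw [Subgroup.upperCentralSeries_one]
          exact hg.1
      · exact (Φ1.F j).one_mem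
    have hue : ∀ w, u w • e = z w • u0 w • e := fun w => by
      rw [← mul_smul, ← Subgroup.mem_center_iff.1 (hz w), mul_smul, ← hze w, ← mul_smul,
        mul_inv_cancel_left]
    have hu0bar : InHK Φ.S K 0 fun w => pz G Q (u0 w) := by
      simpa only [hu0'] using hubar
    obtain ⟨g, hg, hg'⟩ := InHK.lift (pz G Q) hlift (hσ K σ' hgood' _ hu0bar)
    have hW2 : ∀ w, (g w)⁻¹ * σ (u0 w • e) ∈ (pz G Q).ker := fun w => by
      rw [MonoidHom.mem_ker, map_mul, map_inv, hg', pz_smul, hσ', inv_mul_cancel]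
    have hwHK : InHK Φ1.S K 0 fun w => (g w)⁻¹ * σ (u0 w • e) := by
      have := inHK_cut (Q := Q) (S := Φ0.S) (E := (c + 1) * E)
        (fun j hj g hg => hbot 0 j g (by omega) hg) (pz G Q).ker Set.univ
        (fun p hp b => mem_ker_pz.1 hp b)
        (fun p _ hb => eq_of_smul_eq_smul (α := Q) fun x => by rw [hb x trivial, one_smul])
        (K := K) (i := 0) hW2 (by
          intro b _
          obtain ⟨gb, hgb⟩ := hgood b
          obtain ⟨k, hk⟩ := MulAction.exists_smul_eq G b e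
          refine ⟨g⁻¹ * (fun _ => gb) * u0 * fun _ => k, Filt.hk_mul (Filt.hk_mul
            (Filt.hk_mul (Filt.hk_inv hg) (Filt.hk_const (hT0 0) K gb)) hu0)
            (Filt.hk_const (hT0 0) K k), fun w => ?_⟩
          simp only [Pi.mul_apply, Pi.inv_apply, mul_smul, hk, hgb])
      refine this.mono fun j g hg => ?_
      rcases hg.2 with hj | rfl
      · refine (hmem _ j g).2 ⟨?_, htop _ j g (by omega)⟩
        have : pz G Q g = 1 := hg.1
        rw [this]
        exact one_mem _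
      · exact (Φ1.F j).one_mem
    have := Filt.hk_mul hzHK (Filt.hk_mul (hg.mono hle) hwHK)
    convert this using 1
    funext w
    simp only [Pi.mul_apply, mul_inv_cancel_left]
    rw [hue, hzσ _ (hz w)]

theorem exists_cubes {Q : Type u} [Mul Q] [One Q] (G : Subgroup (Equiv.Perm Q)) (L R : Q → G)
    (hL : ∀ a x, L a • x = a * x) (hR : ∀ a x, R a • x = x * a) (h1 : ∀ a : Q, a * 1 = a)
    (c : ℕ) (h : Subgroup.upperCentralSeries G c = ⊤) :
    ∃ C : (K : ℕ) → Set ((Fin K → Bool) → Q),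
      (∀ K (j : Fin K) (a b : Q), (fun w => if w j then b else a) ∈ C K) ∧
      (∀ K (a : Q), (fun _ => a) ∈ C K) ∧
      (∀ K, ∀ f ∈ C K, ∀ g ∈ C K, (fun w => f w * g w) ∈ C K) ∧
      (∀ K, ∀ f ∈ C K, ∀ g ∈ C K, ∀ r : (Fin K → Bool) → Q, (∀ w, f w * r w = g w) → r ∈ C K) ∧
      (∀ K, ∀ f ∈ C K, ∀ g ∈ C K, ∀ r : (Fin K → Bool) → Q, (∀ w, r w * f w = g w) → r ∈ C K) ∧
      (∀ K, EE c ≤ K + 1 → ∀ f ∈ C (K + 1),
        (∀ w : Fin K → Bool, w ≠ (fun _ => true) → f (Fin.cons false w) = f (Fin.cons true w)) →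
        f (Fin.cons false fun _ => true) = f (Fin.cons true fun _ => true)) ∧
      (∀ K, EE c ≤ K → ∀ f ∈ C K, (∀ w, w ≠ (fun _ => true) → f w = 1) →
        f (fun _ => true) = 1) := by
  have : MulAction.IsPretransitive G Q := ⟨fun a b =>
    ⟨L b * (L a)⁻¹, by rw [mul_smul, inv_smul_eq_iff.2 ((hL a 1).trans (h1 a)).symm, hL, h1]⟩⟩
  obtain ⟨Φ, h0, h1', hE, hσ⟩ := main_filt c G Q 1 h
  have gL : Good L := fun b => ⟨R b, fun y => by rw [hL, hR]⟩
  have gR : Good R := fun b => ⟨L b, fun y => by rw [hL, hR]⟩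
  refine ⟨fun K => {f | ∃ u, InHK Φ.S K 0 u ∧ ∀ w, u w • (1 : Q) = f w},
    ?_, ?_, ?_, ?_, ?_, ?_, ?_⟩
  · intro K j a b
    refine ⟨_, inHK_edge (fun j => (Φ.F j).one_mem) (fun g => ?_) (fun g => ?_) K j (L a) (L b),
      fun w => ?_⟩
    · change g ∈ Φ.F 0
      rw [h0]
      trivial
    · change g ∈ Φ.F 1
      rw [h1']
      trivial
    · beta_reduce
      split_ifs <;> rw [hL, h1]
  · intro K a
    exact ⟨_, Filt.hk_const h0 K (L a), fun w => by rw [hL, h1]⟩
  · rintro K f ⟨u, hu, hf⟩ g ⟨v, hv, hg⟩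
    refine ⟨_, Filt.hk_mul (hσ K L gL u hu) hv, fun w => ?_⟩
    rw [Pi.mul_apply, mul_smul, hL, hf, hg]
  · rintro K f ⟨u, hu, hf⟩ g ⟨v, hv, hg⟩ r hr
    refine ⟨_, Filt.hk_mul (Filt.hk_inv (hσ K L gL u hu)) hv, fun w => ?_⟩
    rw [Pi.mul_apply, Pi.inv_apply, mul_smul, inv_smul_eq_iff, hL, hf, hg, hr]
  · rintro K f ⟨u, hu, hf⟩ g ⟨v, hv, hg⟩ r hr
    refine ⟨_, Filt.hk_mul (Filt.hk_inv (hσ K R gR u hu)) hv, fun w => ?_⟩
    rw [Pi.mul_apply, Pi.inv_apply, mul_smul, inv_smul_eq_iff, hR, hf, hg, hr]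
  · rintro K hK f ⟨u, hu, hf⟩ hw
    have := InHK.corner (MulAction.stabilizer G (1 : Q)) hu.2 (fun g hg => by
      have : g ∈ Φ.F (0 + 1 + K) := hg
      rwa [hE _ (by omega)] at this) fun w hne => by
        rw [MulAction.mem_stabilizer_iff, Pi.mul_apply, Pi.inv_apply, mul_smul, inv_smul_eq_iff,
          lo, hi, hf, hf, hw w hne]
    rw [MulAction.mem_stabilizer_iff, Pi.mul_apply, Pi.inv_apply, mul_smul, inv_smul_eq_iff,
      lo, hi, hf, hf] at this
    exact this.symm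
  · rintro K hK f ⟨u, hu, hf⟩ hw
    have := InHK.corner (MulAction.stabilizer G (1 : Q)) hu (fun g hg => by
      have : g ∈ Φ.F (0 + K) := hg
      rwa [hE _ (by omega)] at this) fun w hne => by
        rw [MulAction.mem_stabilizer_iff, hf, hw w hne]
    rwa [MulAction.mem_stabilizer_iff, hf] at this

end H749Z.HK
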